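import Pool.Agent.MP_5c28a4_al.H13S.Base
import Pool.Agent.MP_5c28a4_al.H81S.Ded
import Pool.Agent.MP_5c28a4_al.H3S.Id0

/-!
The package of identities.
-/

set_option autoImplicit false

namespace Pool.Agent.MP_5c28a4_al.H89S.StrA

open scoped commutatorElement
open Ut3A

namespace PcrA

theorem jac : IsJacobsonRing ℤ := isJacobsonRing_iff_prime_eq.2 fun P hP => by
  by_cases h : P = ⊥
  · rw [h, eq_bot_iff]
    intro x hx
    have h1 := Int.isUnit_iff.1 (Ideal.mem_jacobson_bot.1 hx x)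
    have h2 := mul_self_nonneg x
    exact mul_self_eq_zero.1 (by omega)
  · have := IsPrime.to_maximal_ideal h
    exact Ideal.jacobson_eq_self_of_isMaximal

theorem finite_field (F : Type) [Field F] (h : (Int.castRingHom F).FiniteType) : Finite F := by
  have : Algebra.FiniteType ℤ F := by
    rwa [← algebraMap_int_eq, RingHom.finiteType_algebraMap] at h
  have := jac
  have := finite_of_finite_type_of_isJacobsonRing ℤ F
  have h : ¬ Function.Injective (algebraMap ℤ F) := fun h =>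
    Int.not_isField ((Algebra.IsIntegral.isField_iff_isField h).2 (Field.toIsField F))
  rw [injective_iff_map_eq_zero] at h
  push Not at h
  obtain ⟨a, ha, h0⟩ := h
  exact Module.finite_of_fg_torsion F fun x => ⟨⟨a, mem_nonZeroDivisors_of_ne_zero h0⟩, by
    change a • x = 0
    rw [Algebra.smul_def, ha, zero_mul]⟩

/-- the sum of the coefficients is nilpotent modulo the sums of square powers -/
theorem key {ι : Type} [Fintype ι] (u : ι → ℤ) : ∃ s n : ℕ, 0 < n ∧
    ∀ (R : Type) [CommRing R] (ξ : ι → R) (π : R),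
      (∀ N, N ∣ n → π * ∑ i, u i • ξ i ^ N ^ 2 = 0) → π * ((∑ i, u i) • ∏ i, ξ i) ^ s = 0 := by
  have := jac
  obtain ⟨S, hS⟩ : ∃ S : ℕ → MvPolynomial ι ℤ,
      ∀ N, S N = ∑ i, u i • MvPolynomial.X i ^ (N + 1) ^ 2 := ⟨_, fun _ => rfl⟩
  have h : ((∑ i, u i) • ∏ i, MvPolynomial.X i : MvPolynomial ι ℤ) ∈
      (Ideal.span (Set.range S)).radical := by
    rw [Ideal.radical_eq_jacobson]
    refine Ideal.mem_sInf.2 fun {J} ⟨h1, h2⟩ => by_contra fun hg => ?_
    let _ := Ideal.Quotient.field J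
    have := finite_field (MvPolynomial ι ℤ ⧸ J) (by
      rw [Subsingleton.elim (Int.castRingHom _) ((Ideal.Quotient.mk J).comp MvPolynomial.C)]
      exact RingHom.FiniteType.comp_surjective (RingHom.finiteType_algebraMap.2 inferInstance)
        Ideal.Quotient.mk_surjective)
    let _ := Fintype.ofFinite (MvPolynomial ι ℤ ⧸ J)
    rw [← Ideal.Quotient.eq_zero_iff_mem, map_zsmul, map_prod, zsmul_eq_mul] at hg
    obtain ⟨g1, g2⟩ := mul_ne_zero_iff.1 hg
    have h3 := Ideal.Quotient.eq_zero_iff_mem.2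
      (h1 (Ideal.subset_span ⟨Fintype.card (MvPolynomial ι ℤ ⧸ J) - 2, rfl⟩))
    have h4 := Fintype.one_lt_card (α := MvPolynomial ι ℤ ⧸ J)
    rw [hS, map_sum, show Fintype.card (MvPolynomial ι ℤ ⧸ J) - 2 + 1 =
      Fintype.card (MvPolynomial ι ℤ ⧸ J) - 1 by omega] at h3
    apply g1
    rw [← h3, Int.cast_sum]
    refine Finset.sum_congr rfl fun i hi => ?_
    rw [map_zsmul, map_pow, sq, pow_mul, FiniteField.pow_card_sub_one_eq_one _
      (Finset.prod_ne_zero_iff.1 g2 i hi), one_pow, zsmul_one]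
  obtain ⟨s, hs⟩ := h
  obtain ⟨c, hc⟩ := Finsupp.mem_span_range_iff_exists_finsupp.1 hs
  refine ⟨s, ∏ N ∈ c.support, (N + 1), Finset.prod_pos fun _ _ => Nat.succ_pos _,
    fun R _ ξ π h => ?_⟩
  have e := congrArg (MvPolynomial.aeval ξ) hc
  simp only [Finsupp.sum, map_sum, map_pow, map_zsmul, map_prod, MvPolynomial.aeval_X, hS,
    smul_eq_mul, map_mul] at e
  rw [← e, Finset.mul_sum]
  exact Finset.sum_eq_zero fun N hN => by
    rw [mul_left_comm, h _ (Finset.dvd_prod_of_mem _ hN), mul_zero]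

section grp

variable {N : Type} [Group N] {P : Subgroup N} {z y : N}

theorem cc (hB : Cm ⁅P, P⁆ P) {a b x : N} (ha : a ∈ P) (hb : b ∈ P) (hx : x ∈ ⁅P, P⁆) :
    Commute ⁅a, b⁆ x :=
  (hB x hx _ (P.mul_mem (P.mul_mem (P.mul_mem ha hb) (P.inv_mem ha)) (P.inv_mem hb))).symm

theorem comm_evz_pow (hB : Cm ⁅P, P⁆ P) (hz : Nz z P) (hy : y ∈ P) {c : N} (hc : c ∈ P) (n : ℕ)
    (x : FreeGroup ℤ) : ⁅c, evz (y ^ n) z x⁆ = ⁅c, evz y z x⁆ ^ n := by
  have hn := P.pow_mem hy n
  induction x using FreeGroup.induction_on with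
  | C1 => simp
  | of a =>
    rw [evz_of, evz_of, ← conj_pow, ← commutatorElement_inv,
      comm_pow_left hB le_rfl (nz_zpow hz a hy) hc, ← inv_pow, commutatorElement_inv]
  | inv_of a ih =>
    rw [map_inv, map_inv, comm_inv_right hB le_rfl hc (evz_mem hn hz _),
      comm_inv_right hB le_rfl hc (evz_mem hy hz _), ih, inv_pow]
  | mul v w hv hw =>
    rw [map_mul, map_mul, comm_mul_right hB le_rfl hc (evz_mem hn hz _) (evz_mem hn hz _),
      comm_mul_right hB le_rfl hc (evz_mem hy hz _) (evz_mem hy hz _), hv, hw,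
      (cc hB hc (evz_mem hy hz _) (comm_mem le_rfl hc (evz_mem hy hz _))).mul_pow]

theorem evz_der (hz : Nz z P) (hy : y ∈ P) {x : FreeGroup ℤ} (h : ab x = 0) :
    evz y z x ∈ ⁅P, P⁆ := by
  have := Subgroup.mem_map_of_mem (evz y z) (Id0A.comm_of_ab h)
  rw [commutator_def, Subgroup.map_commutator, ← MonoidHom.range_eq_map] at this
  exact Subgroup.commutator_mono (Id0A.range_le hy hz) (Id0A.range_le hy hz) this

theorem evz_pow (hB : Cm ⁅P, P⁆ P) (hz : Nz z P) (hy : y ∈ P) (n : ℕ) {x : FreeGroup ℤ}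
    (h : ab x = 0) : evz (y ^ n) z x = evz y z x ^ n ^ 2 := by
  have h1 := Id0A.comm_of_ab h
  rw [commutator_eq_closure] at h1
  suffices evz y z x ∈ ⁅P, P⁆ ∧ evz (y ^ n) z x = evz y z x ^ n ^ 2 from this.2
  clear h
  induction h1 using Subgroup.closure_induction with
  | mem x hx =>
    obtain ⟨a, b, rfl⟩ := hx
    rw [map_commutatorElement, map_commutatorElement]
    refine ⟨comm_mem le_rfl (evz_mem hy hz _) (evz_mem hy hz _), ?_⟩
    rw [comm_evz_pow hB hz hy (evz_mem (P.pow_mem hy n) hz _), ← commutatorElement_inv,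
      comm_evz_pow hB hz hy (evz_mem hy hz _), ← inv_pow, commutatorElement_inv, ← pow_mul, sq]
  | one => simp
  | mul v w _ _ hv hw =>
    rw [map_mul, map_mul, hv.2, hw.2]
    exact ⟨mul_mem hv.1 hw.1, (Commute.mul_pow (hB _ hv.1 _ (evz_mem hy hz _)) _).symm⟩
  | inv v _ hv =>
    rw [map_inv, map_inv, hv.2, inv_pow]
    exact ⟨inv_mem hv.1, rfl⟩

theorem comm_le (P : Subgroup N) : ⁅P, P⁆ ≤ P := Subgroup.commutator_le.2 fun _ ha _ hb =>
  P.mul_mem (P.mul_mem (P.mul_mem ha hb) (P.inv_mem ha)) (P.inv_mem hb)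

end grp

end PcrA

open PcrA in
theorem pcr (h0 : SID0) (hS : XSum) : XPcr := by
  classical
  intro p hp u hu
  obtain ⟨u₀, w₀, -, h1, h2⟩ := h0 p u hp hu
  obtain ⟨w₁, h3⟩ : ∃ w₁, ¬ (p : ℤ) ∣ ∑ w ∈ u₀.support with ab w = ab w₁, u₀ w := by
    by_contra h
    push Not at h
    apply h1
    rw [← Finset.sum_fiberwise_of_maps_to (g := ab) fun w hw => Finset.mem_image_of_mem ab hw]
    refine Finset.dvd_sum fun k hk => ?_
    obtain ⟨w₁, hw₁, rfl⟩ := Finset.mem_image.1 hk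
    rw [Finset.filter_filter, Finset.filter_congr (q := fun w => ab w = ab w₁) fun w _ =>
      ⟨fun h => h.2, fun h => ⟨h ▸ (Finset.mem_filter.1 hw₁).2, h⟩⟩]
    exact h w₁
  obtain ⟨T, hT⟩ : ∃ T, T = u₀.support.filter fun w => ¬ ab w = ab w₁ := ⟨_, rfl⟩
  obtain ⟨e, he, he'⟩ : ∃ e : Fin T.card → FreeGroup ℤ, (∀ k, e k ∈ T) ∧ ∀ v ∈ T, ∃ k, e k = v :=
    ⟨fun k => T.equivFin.symm k, fun k => (T.equivFin.symm k).2,
      fun v hv => ⟨T.equivFin ⟨v, hv⟩, by simp⟩⟩
  simp only [hT, Finset.mem_filter] at he he'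
  have hl : ∀ {N : Type} (y : Fin T.card → N), ∀ i ∈ u₀.support,
      ¬ ab i = ab w₁ → ∃ t ∈ List.ofFn fun k => (e k, y k), t.1 = i := fun y i hi hq => by
    obtain ⟨k, rfl⟩ := he' i ⟨hi, hq⟩
    exact ⟨_, List.mem_ofFn.2 ⟨k, rfl⟩, rfl⟩
  have hd : ∀ v, ab v = ab w₁ → ab (v * w₁⁻¹) = 0 := fun v h => by rw [ab_div, h, sub_self]
  obtain ⟨s, n, hn, hk⟩ := key fun v : u₀.support.filter fun w => ab w = ab w₁ => u₀ v
  rw [Finset.sum_coe_sort _ fun v => u₀ v] at hk
  obtain ⟨a, ha⟩ : ∃ a, a = ∑ w ∈ u₀.support with ab w = ab w₁, u₀ w := ⟨_, rfl⟩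
  rw [← ha] at h3 hk
  refine ⟨_, fun k => e k * w₁⁻¹, a ^ (s + 1), n, fun k => ?_, pow_mem (show a ∈ npr p hp from h3) _,
    hn, fun N A _ _ ρ hρ => ⟨fun B z y hB hz hy => ?_, fun P z y c hP hz hy hc => ?_⟩⟩
  · rw [ab_div, sub_ne_zero]
    exact (he k).2
  · have := ded B u₀.support (fun w => ab w = ab w₁) (fun v b => ρ (evz b z (v * w₁⁻¹)))
      (fun v => u₀ v • (1 : Module.End ℤ A))
      (fun v _ => by
        have := evz_mul hB hz B.one_mem B.one_mem (v * w₁⁻¹)
        rw [mul_one, left_eq_mul] at this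
        rw [this, map_one])
      (fun v _ a ha b hb => by rw [evz_mul hB hz ha hb, map_mul])
      (fun v _ w _ a ha b hb => by
        rw [← map_mul, hB _ (evz_mem ha hz _) _ (evz_mem hb hz _), map_mul])
      (fun v _ hv b hb => by
        have := evz_der hz hb (hd v hv)
        rw [cm_iff.1 hB, Subgroup.mem_bot] at this
        rw [this, map_one])
      (fun b hb => by
        simpa only [mul_smul_comm, mul_one] using
          shift ρ (h2 N A ρ hρ B b z (lcs_two hB (comm_le B)) hb hz) w₁)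
      (List.ofFn fun k => (e k, y k)) (List.forall_mem_ofFn_iff.2 fun k => ⟨(he k).1, hy k⟩)
      (hl y)
    rw [← Finset.sum_smul, ← ha, mul_smul_comm, mul_one, List.map_ofFn] at this
    rw [wd, List.map_ofFn, pow_succ, mul_smul]
    exact (congrArg (a ^ s • ·) this).trans (smul_zero _)
  · have hB := cm_of_lcs_two hP
    obtain ⟨R, _, ψ, f, hψ, hf⟩ := hS.bridge N A ρ ⁅P, P⁆ fun b hb x hx => hB b hb x (comm_le P hx)
    have m1 : ∀ v : u₀.support.filter fun w => ab w = ab w₁, evz y z (v * w₁⁻¹) ∈ ⁅P, P⁆ :=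
      fun v => evz_der hz hy (hd v (Finset.mem_filter.1 v.2).2)
    have e1 : ψ (List.ofFn fun k => f (⁅c k, evz y z (e k * w₁⁻¹)⁆ ^ n) - 1).prod =
        wd ρ (List.ofFn fun k => ⁅c k, evz y z (e k * w₁⁻¹)⁆ ^ n) := by
      rw [map_list_prod, wd, List.map_ofFn, List.map_ofFn]
      congr 2
      funext k
      simp only [Function.comp, map_sub, map_one]
      rw [hf _ (pow_mem (comm_mem le_rfl (hc k) (evz_mem hy hz _)) n)]
    have e2 := hk R (fun v => f (evz y z (v * w₁⁻¹)))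
      (List.ofFn fun k => f (⁅c k, evz y z (e k * w₁⁻¹)⁆ ^ n) - 1).prod fun M ⟨M', hM⟩ => hψ (by
      have hy' := P.pow_mem hy M
      have := ded_two ρ (comm_le P) hB le_rfl u₀.support (fun w => ab w = ab w₁) u₀
        (fun v => evz (y ^ M) z (v * w₁⁻¹)) (fun v _ => evz_mem hy' hz _)
        (fun v _ hv => evz_der hz hy' (hd v hv)) (shift ρ (h2 N A ρ hρ P _ z hP hy' hz) w₁)
        (List.ofFn fun k => (e k, c k ^ M'))
        (List.forall_mem_ofFn_iff.2 fun k => ⟨(he k).1, P.pow_mem (hc k) _⟩) (hl _)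
      rw [map_mul, e1, map_zero, ← this, wd, List.map_ofFn, List.map_ofFn, map_sum,
        ← Finset.sum_coe_sort (u₀.support.filter _)]
      congr 1
      · congr 2
        funext k
        simp only [Function.comp]
        rw [comm_pow_left hB le_rfl (hc k) (evz_mem hy' hz _), comm_evz_pow hB hz hy (hc k),
          ← pow_mul, hM]
      · exact Finset.sum_congr rfl fun v _ => by
          rw [map_zsmul, map_pow, hf _ (m1 v), ← map_pow,
            evz_pow hB hz hy M (hd v (Finset.mem_filter.1 v.2).2)])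
    have u1 : IsUnit (∏ v : u₀.support.filter fun w => ab w = ab w₁, f (evz y z (v * w₁⁻¹))) :=
      IsUnit.prod_univ_iff.2 fun v => IsUnit.of_mul_eq_one (f (evz y z (v * w₁⁻¹))⁻¹) (hψ (by
        rw [map_mul, hf _ (m1 v), hf _ (inv_mem (m1 v)), ← map_mul, mul_inv_cancel, map_one,
          map_one]))
    rw [smul_pow, mul_smul_comm, ← smul_mul_assoc, (u1.pow s).mul_left_eq_zero] at e2
    rw [← e1, pow_succ', mul_smul, ← map_zsmul, e2, map_zero, smul_zero]

end Pool.Agent.MP_5c28a4_al.H89S.StrA
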